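import Pool.Agent.Helper52_Lin.Stmts

/-!
# MP_e6747d_al, module I: induction on the dimension
-/

set_option autoImplicit false

open Pool.Agent.Helper34_Synd

namespace Pool.Agent.Lin52.H31

universe u w

variable {G : Type u} [Group G] {F : Type w} [Field F] {V : Type w} [AddCommGroup V] [Module F V]

/-- restriction of a representation to an invariant subspace -/
def resRep (ρ : G →* Module.End F V) (W : Submodule F V) (hW : ∀ g, ∀ x ∈ W, ρ g x ∈ W) :
    G →* Module.End F W where
  toFun g := (ρ g).restrict (hW g)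
  map_one' := by
    ext x
    simp
  map_mul' a b := by
    ext x
    simp

/-- the representation on the quotient by an invariant subspace -/
def quoRep (ρ : G →* Module.End F V) (W : Submodule F V) (hW : ∀ g, ∀ x ∈ W, ρ g x ∈ W) :
    G →* Module.End F (V ⧸ W) where
  toFun g := W.mapQ W (ρ g) (hW g)
  map_one' := by
    ext x
    simp
  map_mul' a b := by
    ext x
    simp

theorem resRep_apply (ρ : G →* Module.End F V) (W : Submodule F V)
    (hW : ∀ g, ∀ x ∈ W, ρ g x ∈ W) (g : G) (x : W) :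
    ((resRep ρ W hW g x : W) : V) = ρ g x := rfl

theorem quoRep_apply (ρ : G →* Module.End F V) (W : Submodule F V)
    (hW : ∀ g, ∀ x ∈ W, ρ g x ∈ W) (g : G) (x : V) :
    quoRep ρ W hW g (Submodule.Quotient.mk x) = Submodule.Quotient.mk (ρ g x) := rfl

/-- the unipotent part -/
def uni (ρ : G →* Module.End F V) (W : Submodule F V) (hW : ∀ g, ∀ x ∈ W, ρ g x ∈ W) :
    Subgroup G := (resRep ρ W hW).ker ⊓ (quoRep ρ W hW).ker

theorem uni_res {ρ : G →* Module.End F V} {W : Submodule F V}
    {hW : ∀ g, ∀ x ∈ W, ρ g x ∈ W} {g : G} (hg : g ∈ uni ρ W hW) (x : V) (hx : x ∈ W) :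
    ρ g x = x := by
  have h1 : resRep ρ W hW g = 1 := hg.1
  have h2 := resRep_apply ρ W hW g ⟨x, hx⟩
  rw [h1] at h2
  exact h2.symm

theorem uni_quo {ρ : G →* Module.End F V} {W : Submodule F V}
    {hW : ∀ g, ∀ x ∈ W, ρ g x ∈ W} {g : G} (hg : g ∈ uni ρ W hW) (x : V) :
    ρ g x - x ∈ W := by
  have h1 : quoRep ρ W hW g = 1 := hg.2
  have h2 := quoRep_apply ρ W hW g x
  rw [h1] at h2
  exact (Submodule.Quotient.eq W).1 h2.symm

/-- the unipotent part acts commutatively -/
theorem uni_comm {ρ : G →* Module.End F V} {W : Submodule F V}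
    {hW : ∀ g, ∀ x ∈ W, ρ g x ∈ W} {a b : G} (ha : a ∈ uni ρ W hW) (hb : b ∈ uni ρ W hW) :
    ρ a * ρ b = ρ b * ρ a := by
  ext x
  have h1 : ρ a (ρ b x) = ρ a x + (ρ b x - x) := by
    have h2 := uni_res ha _ (uni_quo hb x)
    rw [map_sub] at h2
    rw [← h2]; abel
  have h3 : ρ b (ρ a x) = ρ b x + (ρ a x - x) := by
    have h2 := uni_res hb _ (uni_quo ha x)
    rw [map_sub] at h2
    rw [← h2]; abel
  change ρ a (ρ b x) = ρ b (ρ a x)
  rw [h1, h3]
  abel

/-- if both pieces have countable images then the unipotent part has uncountable image -/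
theorem uncountable_uni (ρ : G →* Module.End F V) (W : Submodule F V)
    (hW : ∀ g, ∀ x ∈ W, ρ g x ∈ W) (h : ¬ (Set.range ρ).Countable)
    (h1 : (Set.range (resRep ρ W hW)).Countable) (h2 : (Set.range (quoRep ρ W hW)).Countable) :
    ¬ (ρ '' (uni ρ W hW : Set G)).Countable := by
  classical
  intro h3
  apply h
  let p : G → Module.End F W × Module.End F (V ⧸ W) := fun g => (resRep ρ W hW g, quoRep ρ W hW g)
  have hp : (Set.range p).Countable := by
    refine (h1.prod h2).mono ?_
    rintro _ ⟨g, rfl⟩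
    exact ⟨⟨g, rfl⟩, ⟨g, rfl⟩⟩
  -- a section of p
  let s : Module.End F W × Module.End F (V ⧸ W) → G := Function.invFun p
  have hs : ∀ g, p (s (p g)) = p g := fun g => Function.invFun_eq ⟨g, rfl⟩
  refine ((hp.image (fun q => ρ (s q))).image2 h3 (fun a b => a * b)).mono ?_
  rintro _ ⟨g, rfl⟩
  refine ⟨ρ (s (p g)), ⟨p g, ⟨g, rfl⟩, rfl⟩, ρ ((s (p g))⁻¹ * g), ⟨_, ?_, rfl⟩, ?_⟩
  · have h4 := hs g
    have h5 : resRep ρ W hW (s (p g)) = resRep ρ W hW g := congrArg Prod.fst h4
    have h6 : quoRep ρ W hW (s (p g)) = quoRep ρ W hW g := congrArg Prod.snd h4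
    constructor
    · change resRep ρ W hW ((s (p g))⁻¹ * g) = 1
      rw [map_mul, ← h5, ← map_mul, inv_mul_cancel, map_one]
    · change quoRep ρ W hW ((s (p g))⁻¹ * g) = 1
      rw [map_mul, ← h6, ← map_mul, inv_mul_cancel, map_one]
  · change ρ (s (p g)) * ρ ((s (p g))⁻¹ * g) = ρ g
    rw [← map_mul, mul_inv_cancel_left]

/-- an uncountable abelian-by-anything image -/
theorem good_of_uni (hA : AbeStmt.{w}) (ρ : G →* Module.End F V) (W : Submodule F V)
    (hW : ∀ g, ∀ x ∈ W, ρ g x ∈ W) (h : ¬ (ρ '' (uni ρ W hW : Set G)).Countable) : Good G := by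
  classical
  let π : G →* (Module.End F V)ˣ := ρ.toHomUnits
  have hπ : ∀ g, ((π g : (Module.End F V)ˣ) : Module.End F V) = ρ g := fun g => rfl
  have hsurj : Function.Surjective π.rangeRestrict := π.rangeRestrict_surjective
  refine good_of_surjective π.rangeRestrict hsurj ?_
  let N : Subgroup π.range := (uni ρ W hW).map π.rangeRestrict
  have hun : (uni ρ W hW).Normal := by
    unfold uni
    exact Subgroup.normal_inf_normal _ _
  have hN : N.Normal := Subgroup.Normal.map hun _ hsurj
  have hinf : Infinite N := by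
    by_contra hfin
    rw [not_infinite_iff_finite] at hfin
    apply h
    have h1 : (N : Set π.range).Finite := Set.toFinite _
    refine ((h1.image (fun x : π.range => ((x : (Module.End F V)ˣ) : Module.End F V))).subset
      ?_).countable
    rintro _ ⟨g, hg, rfl⟩
    exact ⟨π.rangeRestrict g, ⟨g, hg, rfl⟩, rfl⟩
  refine good_of_normal_amenable N (hA N ?_)
  rintro ⟨_, a, ha, rfl⟩ ⟨_, b, hb, rfl⟩
  apply Subtype.ext
  apply Subtype.ext
  apply Units.ext
  exact uni_comm ha hb

/-- I -/
theorem i (hD : AbsStmt.{w}) (hE : TrsStmt.{u, w}) (hC : EigStmt.{u, w}) (hA : AbeStmt.{w}) :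
    IndStmt.{u, w} := by
  classical
  intro G _ F _ _ V _ _ _ ρ hρ
  obtain ⟨n, hn⟩ : ∃ n, Module.finrank F V = n := ⟨_, rfl⟩
  induction n using Nat.strong_induction_on generalizing V with
  | _ n ih =>
    rcases subsingleton_or_nontrivial V with hV | hV
    · exfalso
      apply hρ
      have : Subsingleton (Module.End F V) := ⟨fun a b => LinearMap.ext fun x =>
        Subsingleton.elim _ _⟩
      exact Set.subsingleton_of_subsingleton.countable
    by_cases hirr : ∀ W : Submodule F V, (∀ g, ∀ x ∈ W, ρ g x ∈ W) → W = ⊥ ∨ W = ⊤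
    · obtain ⟨g, α, hα, htr⟩ := hE G F V ρ hirr hρ
      obtain ⟨v, hv, hvα⟩ := hD F α htr
      exact good_of_coarseWindows (hC G F v V ρ g α hv hα hvα)
    · push Not at hirr
      obtain ⟨W, hW, hW0, hW1⟩ := hirr
      by_cases h1 : (Set.range (resRep ρ W hW)).Countable
      · by_cases h2 : (Set.range (quoRep ρ W hW)).Countable
        · exact good_of_uni hA ρ W hW (uncountable_uni ρ W hW hρ h1 h2)
        · refine ih (Module.finrank F (V ⧸ W)) ?_ (V ⧸ W) (quoRep ρ W hW) h2 rfl
          rw [← hn, ← Submodule.finrank_quotient_add_finrank W]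
          have : 0 < Module.finrank F W := by
            rw [Module.finrank_pos_iff, Submodule.nontrivial_iff_ne_bot]
            exact hW0
          omega
      · refine ih (Module.finrank F W) ?_ W (resRep ρ W hW) h1 rfl
        rw [← hn]
        exact Submodule.finrank_lt (lt_top_iff_ne_top.2 hW1).ne

end Pool.Agent.Lin52.H31
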