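import Pool.Agent.Helper52_Lin.Stmts

/-!
# MP_e6747d_al, module Q: arbitrarily large finite quotients
-/

set_option autoImplicit false

open Pool.Agent.Helper34_Synd

namespace Pool.Agent.Lin52.H31

/-- counting in a finite group: a coset of a subgroup of index at least `2 ^ n` -/
theorem card_coset_le {Q : Type*} [Group Q] [Fintype Q] [DecidableEq Q] (H : Subgroup Q)
    [DecidablePred (· ∈ H)] (n : ℕ) (hn : 2 ^ n ≤ H.index) (a : Q) :
    (((Finset.univ : Finset Q).filter (fun x => a * x ∈ H)).card : ℝ) ≤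
      (1 / 2 : ℝ) ^ n * Fintype.card Q := by
  have h1 : ((Finset.univ : Finset Q).filter (fun x => a * x ∈ H)).card = Nat.card H := by
    rw [Nat.card_eq_fintype_card, Fintype.card_subtype]
    refine Finset.card_bij (fun x _ => a * x) ?_ ?_ ?_
    · intro x hx
      simpa using hx
    · intro x _ y _ h
      exact mul_left_cancel h
    · intro y hy
      exact ⟨a⁻¹ * y, by simpa using hy, by simp⟩
  rw [h1]
  have h2 := Subgroup.card_mul_index H
  rw [Nat.card_eq_fintype_card (α := Q)] at h2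
  have h3 : (Nat.card H : ℝ) * H.index = Fintype.card Q := by exact_mod_cast h2
  have h4 : ((2 : ℝ) ^ n) ≤ H.index := by exact_mod_cast hn
  rw [← h3]
  have h5 : (1 / 2 : ℝ) ^ n * 2 ^ n = 1 := by rw [← mul_pow]; norm_num
  calc (Nat.card H : ℝ) = (1 / 2 : ℝ) ^ n * (Nat.card H * 2 ^ n) := by
        rw [mul_comm (Nat.card H : ℝ), ← mul_assoc, h5, one_mul]
    _ ≤ _ := by gcongr

theorem q.{u} : QuoStmt.{u} := by
  classical
  intro G _ hG
  choose K hKn hKf hKi using fun n : ℕ => hG (2 ^ n)
  refine ⟨fun n => (K n : Set G), ?_, ?_⟩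
  · intro n
    have := hKf n
    have hfin : Finite (G ⧸ K n) := Subgroup.finite_quotient_of_finiteIndex
    have : Fintype (G ⧸ K n) := Fintype.ofFinite _
    refine ⟨(Finset.univ : Finset (G ⧸ K n)).image Quotient.out, fun g => ?_⟩
    refine ⟨(QuotientGroup.mk g : G ⧸ K n).out, Finset.mem_image_of_mem _ (Finset.mem_univ _), ?_⟩
    have h1 : (QuotientGroup.mk ((QuotientGroup.mk g : G ⧸ K n).out) : G ⧸ K n) =
        QuotientGroup.mk g := Quotient.out_eq _
    exact QuotientGroup.eq.1 h1
  · intro T hT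
    -- the common finite quotient
    let L : Subgroup G := ⨅ p : {p // p ∈ T}, K p.1.2
    have hLn : L.Normal := Subgroup.normal_iInf_normal fun p => hKn p.1.2
    have hLf : L.FiniteIndex := by
      have : ∀ p : {p // p ∈ T}, (K p.1.2).FiniteIndex := fun p => hKf p.1.2
      exact Subgroup.finiteIndex_iInf this
    have hLle : ∀ p ∈ T, L ≤ K p.2 := fun p hp => iInf_le (fun p : {p // p ∈ T} => K p.1.2) ⟨p, hp⟩
    have hfin : Finite (G ⧸ L) := Subgroup.finite_quotient_of_finiteIndex
    have : Fintype (G ⧸ L) := Fintype.ofFinite _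
    refine ⟨(Finset.univ : Finset (G ⧸ L)).image Quotient.out, fun y => ?_⟩
    let H : G × ℕ → Subgroup (G ⧸ L) := fun p => (K p.2).map (QuotientGroup.mk' L)
    have hHi : ∀ p ∈ T, 2 ^ p.2 ≤ (H p).index := by
      intro p hp
      have h1 : (H p).index = (K p.2).index := by
        apply Subgroup.index_map_eq
        · exact QuotientGroup.mk'_surjective L
        · rw [QuotientGroup.ker_mk']
          exact hLle p hp
      rw [h1]
      exact hKi p.2
    have hmem : ∀ p ∈ T, ∀ x : G, (QuotientGroup.mk x : G ⧸ L) ∈ H p ↔ x ∈ K p.2 := by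
      intro p hp x
      constructor
      · rintro ⟨z, hz, hzx⟩
        have h1 : z⁻¹ * x ∈ L := QuotientGroup.eq.1 hzx
        have h2 := (K p.2).mul_mem hz (hLle p hp h1)
        simpa using h2
      · intro hx
        exact ⟨x, hx, rfl⟩
    -- bad cosets
    by_contra hcon
    push Not at hcon
    have hcover : (Finset.univ : Finset (G ⧸ L)) ⊆ T.biUnion (fun p => Finset.univ.filter
        (fun x : G ⧸ L => ((QuotientGroup.mk y : G ⧸ L) * (QuotientGroup.mk p.1 : G ⧸ L)⁻¹) * x
          ∈ H p)) := by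
      intro x _
      obtain ⟨p, hp, hpB⟩ := hcon x.out (Finset.mem_image_of_mem _ (Finset.mem_univ _))
      refine Finset.mem_biUnion.2 ⟨p, hp, Finset.mem_filter.2 ⟨Finset.mem_univ _, ?_⟩⟩
      have h1 : y * (p.1⁻¹ * (x.out * y)) * y⁻¹ ∈ K p.2 :=
        (hKn p.2).conj_mem _ hpB y
      have h2 : y * (p.1⁻¹ * (x.out * y)) * y⁻¹ = y * p.1⁻¹ * x.out := by group
      rw [h2] at h1
      have h3 : (QuotientGroup.mk (y * p.1⁻¹ * x.out) : G ⧸ L) =
          (QuotientGroup.mk y : G ⧸ L) * (QuotientGroup.mk p.1 : G ⧸ L)⁻¹ * x := by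
        rw [QuotientGroup.mk_mul, QuotientGroup.mk_mul, QuotientGroup.mk_inv]
        congr 1
        exact Quotient.out_eq x
      rw [← h3]
      exact (hmem p hp _).2 h1
    have h7 := (Finset.card_le_card hcover).trans Finset.card_biUnion_le
    rw [Finset.card_univ] at h7
    have h8 : (Fintype.card (G ⧸ L) : ℝ) ≤ ∑ p ∈ T, (((Finset.univ : Finset (G ⧸ L)).filter
        (fun x : G ⧸ L => ((QuotientGroup.mk y : G ⧸ L) * (QuotientGroup.mk p.1 : G ⧸ L)⁻¹) * x
          ∈ H p)).card : ℝ) := by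
      exact_mod_cast h7
    have h9 := h8.trans (Finset.sum_le_sum fun p hp =>
      card_coset_le (H p) p.2 (hHi p hp) _)
    rw [← Finset.sum_mul] at h9
    have h10 : (0 : ℝ) < Fintype.card (G ⧸ L) := by exact_mod_cast Fintype.card_pos
    have h11 := mul_lt_mul_of_pos_right hT h10
    linarith

end Pool.Agent.Lin52.H31
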